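import Pool.Agent.Helper73.Dil.Conn

/-!
Module S_POT: global potentials.
-/

open Topology Set Filter MeasureTheory Metric

namespace Pool.Agent.Helper78.Dil

open Pool.Agent.Helper73.Dil Pool.Agent.Helper73.Dil.DilationSurface

universe u

/-! ### the affine map of the plane -/

theorem pot_map {ρ : ℝ} (hρ : ρ ≠ 0) (β : ℂ) :
    Measure.map (fun z : ℂ => (ρ : ℂ) * z + β) volume =
      ENNReal.ofReal |(ρ ^ 2)⁻¹| • (volume : Measure ℂ) := by
  have h1 := Measure.map_addHaar_smul (volume : Measure ℂ) hρ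
  rw [Complex.finrank_real_complex] at h1
  have h2 : (fun z : ℂ => (ρ : ℂ) * z + β) = (fun w => w + β) ∘ (fun z : ℂ => ρ • z) := by
    funext z
    simp
  rw [h2, ← Measure.map_map (by fun_prop) (by fun_prop), h1, Measure.map_smul,
    map_add_right_eq_self]

theorem pot_ae {ρ : ℝ} (hρ : ρ ≠ 0) (β : ℂ) {p : ℂ → Prop} (h : ∀ᵐ w, p w) :
    ∀ᵐ z : ℂ, p ((ρ : ℂ) * z + β) := by
  have hq : Measure.QuasiMeasurePreserving (fun z : ℂ => (ρ : ℂ) * z + β) volume volume := by
    refine ⟨by fun_prop, ?_⟩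
    rw [pot_map hρ]
    exact Measure.smul_absolutelyContinuous
  exact hq.ae h

theorem pot_lint {ρ : ℝ} (hρ : ρ ≠ 0) (β : ℂ) (F : ℂ → ENNReal) :
    ∫⁻ z : ℂ, F ((ρ : ℂ) * z + β) = ENNReal.ofReal |(ρ ^ 2)⁻¹| * ∫⁻ w, F w := by
  have h1 := lintegral_map_equiv (μ := (volume : Measure ℂ)) F
    (affHomeo ρ hρ β).toMeasurableEquiv
  have h2 : (⇑(affHomeo ρ hρ β).toMeasurableEquiv : ℂ → ℂ) = fun z : ℂ => (ρ : ℂ) * z + β := by
    funext z
    rfl
  rw [h2, pot_map hρ, lintegral_smul_measure] at h1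
  rw [← smul_eq_mul, h1]

theorem pot_isOpen_B1 : IsOpen B1 := isOpen_ball

theorem pot_isOpen_Bh : IsOpen Bh := isOpen_ball

theorem pot_Bh_subset : Bh ⊆ B1 := ball_subset_ball (by norm_num)

section
variable {X : Type u} [TopologicalSpace X] {D : DilationSurface X}

/-! ### the ratios -/

theorem pot_rat_trans {b b' c : OpenPartialHomeomorph X ℂ} (hb : D.IsChart b)
    (hb' : D.IsChart b') (hc : D.IsChart c) {x : X} (hx : x ∈ b.source) (hx' : x ∈ b'.source)
    (hxc : x ∈ c.source) : rat b c x = rat b b' x * rat b' c x := by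
  obtain ⟨r, hr⟩ := isChart_dil hb hb' hx hx'
  obtain ⟨s, hs⟩ := isChart_dil hb' hc hx' hxc
  obtain ⟨q, hq⟩ := isChart_dil hb hc hx hxc
  obtain ⟨-, β, h1⟩ := rat_spec hr
  obtain ⟨-, β', h2⟩ := rat_spec hs
  have h3 : ∀ᶠ y in 𝓝 x, c y = ((rat b b' x * rat b' c x : ℝ) : ℂ) * b y
      + (rat b' c x * β + β') := by
    filter_upwards [h1, h2] with y h1 h2
    rw [h2, h1]
    push_cast
    ring
  exact (rat_unique b hx hq h3).symm

/-- a small disc around the image of `x` -/
theorem pot_disc {b : OpenPartialHomeomorph X ℂ} (hb : D.IsBall b) {x : X} (hx : x ∈ b.source)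
    {p : X → Prop} (hp : ∀ᶠ y in 𝓝 x, p y) : ∃ r, 0 < r ∧ ball (b x) r ⊆ B1 ∧
      ∀ z ∈ ball (b x) r, p (b.symm z) := by
  obtain ⟨r, hr, h1, h2⟩ := exists_small_ball b hx (N := {y | p y}) hp
  rw [hb.2] at h1
  refine ⟨r, hr, h1, fun z hz => h2 ⟨ball_symm_mem hb (h1 hz), ?_⟩⟩
  show b (b.symm z) ∈ ball (b x) r
  rw [ball_right_inv hb (h1 hz)]
  exact hz

theorem pot_fderiv_ext {L L' : ℂ →L[ℝ] ℂ} (h1 : L 1 = L' 1) (hI : L Complex.I = L' Complex.I) :
    L = L' := by
  refine ContinuousLinearMap.ext fun v => ?_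
  have hv : v = v.re • (1 : ℂ) + v.im • Complex.I := by
    apply Complex.ext <;> simp
  rw [hv, map_add, map_add, map_smul, map_smul, map_smul, map_smul, h1, hI]

variable [MeasurableSpace X]

/-- local potentials in different balls differ by constants, locally -/
theorem pot_affine (R : D.Ref) (α : R.H × R.H) (a : OpenPartialHomeomorph X ℂ → ℂ → ℂ)
    (ha : ∀ b, D.IsBall b → ContDiffOn ℝ 1 (a b) B1 ∧
      (R.loc b α.1 =ᵐ[volume.restrict B1] dx (a b)) ∧
      (R.loc b α.2 =ᵐ[volume.restrict B1] dy (a b)))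
    {b b' : OpenPartialHomeomorph X ℂ} (hb : D.IsBall b) (hb' : D.IsBall b') {x : X}
    (hx : x ∈ b.source) (hx' : x ∈ b'.source) :
    ∀ᶠ y in 𝓝 x, a b' (b' y) - a b (b y) = a b' (b' x) - a b (b x) := by
  obtain ⟨s, hs⟩ := isChart_dil hb.1 hb'.1 hx hx'
  obtain ⟨hρ, β, hβ⟩ := rat_spec hs
  set ρ := rat b b' x with hρdef
  have hev : ∀ᶠ y in 𝓝 x, y ∈ b'.source ∧ b' y = ρ * b y + β ∧ rat b b' y = ρ :=
    (show ∀ᶠ y in 𝓝 x, y ∈ b'.source from b'.open_source.mem_nhds hx').and
      (hβ.and (rat_eventually hb.1 hb'.1 hx hx'))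
  obtain ⟨r, hr, hrB, hrp⟩ := pot_disc hb hx hev
  set D0 := ball (b x) r with hD0
  have hmem : ∀ z ∈ D0, (ρ : ℂ) * z + β ∈ B1 := by
    intro z hz
    obtain ⟨h1, h2, -⟩ := hrp z hz
    rw [ball_right_inv hb (hrB hz)] at h2
    rw [← h2, ← hb'.2]
    exact b'.map_source h1
  -- coefficients of the form in the two balls
  have hcoef : ∀ (f : X → ℂ), ∀ z ∈ D0, R.loc b f z = ρ * R.loc b' f (ρ * z + β) := by
    intro f z hz
    obtain ⟨h1, h2, h3⟩ := hrp z hz
    have h4 : b'.symm (ρ * z + β) = b.symm z := by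
      rw [ball_right_inv hb (hrB hz)] at h2
      rw [← h2, b'.left_inv h1]
    unfold Ref.loc
    rw [h4]
    have hreg := ball_symm_reg hb (hrB hz)
    rw [pot_rat_trans hb.1 hb'.1 (ref_ch_isBall R _).1 (ball_symm_mem hb (hrB hz)) h1
      (ref_mem_ch R hreg), h3]
    push_cast
    ring
  have key : ∀ (f : X → ℂ) (v : ℂ),
      (R.loc b f =ᵐ[volume.restrict B1] fun z => fderiv ℝ (a b) z v) →
      (R.loc b' f =ᵐ[volume.restrict B1] fun z => fderiv ℝ (a b') z v) →
      ∀ z ∈ D0, fderiv ℝ (a b) z v = ρ * fderiv ℝ (a b') (ρ * z + β) v := by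
    intro f v h1 h2
    have hae : (fun z => fderiv ℝ (a b) z v) =ᵐ[volume.restrict D0]
        fun z => ρ * fderiv ℝ (a b') (ρ * z + β) v := by
      have h2' := pot_ae hρ β ((ae_restrict_iff' measurableSet_ball).mp h2)
      have h1' := (ae_restrict_iff' measurableSet_ball).mp h1
      refine (ae_restrict_iff' measurableSet_ball).mpr ?_
      filter_upwards [h1', h2'] with z hz1 hz2 hz
      rw [← hz1 (hrB hz), ← hz2 (hmem z hz)]
      exact hcoef f z hz
    have hcb : ∀ c, D.IsBall c → ContinuousOn (fun z => fderiv ℝ (a c) z v) B1 := by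
      intro c hc
      have h3 := (ha c hc).1.continuousOn_fderiv_of_isOpen pot_isOpen_B1 le_rfl
      exact h3.clm_apply continuousOn_const
    exact Measure.eqOn_open_of_ae_eq hae isOpen_ball ((hcb b hb).mono hrB)
      (continuousOn_const.mul ((hcb b' hb').comp (by fun_prop) hmem))
  have k1 := key α.1 1 (ha b hb).2.1 (ha b' hb').2.1
  have kI := key α.2 Complex.I (ha b hb).2.2 (ha b' hb').2.2
  -- the difference is locally constant
  let h : ℂ → ℂ := fun z => a b' (ρ * z + β) - a b z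
  have hder : ∀ z ∈ D0, HasFDerivAt h (0 : ℂ →L[ℝ] ℂ) z := by
    intro z hz
    have d1 : DifferentiableAt ℝ (a b) z :=
      ((ha b hb).1.differentiableOn one_ne_zero).differentiableAt
        (pot_isOpen_B1.mem_nhds (hrB hz))
    have d2 : DifferentiableAt ℝ (a b') (ρ * z + β) :=
      ((ha b' hb').1.differentiableOn one_ne_zero).differentiableAt
        (pot_isOpen_B1.mem_nhds (hmem z hz))
    have hin : HasFDerivAt (fun z : ℂ => (ρ : ℂ) * z + β)
        (ρ • (ContinuousLinearMap.id ℝ ℂ)) z := by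
      have := ((hasFDerivAt_id (𝕜 := ℝ) z).const_smul ρ).add_const β
      have h4 : (fun z : ℂ => (ρ : ℂ) * z + β) = fun z : ℂ => (ρ • id) z + β := by
        funext z; simp
      rw [h4]
      exact this
    have h3 := (d2.hasFDerivAt.comp z hin).sub d1.hasFDerivAt
    have h4 : (fderiv ℝ (a b') (ρ * z + β)).comp (ρ • (ContinuousLinearMap.id ℝ ℂ))
        - fderiv ℝ (a b) z = 0 := by
      rw [sub_eq_zero]
      apply pot_fderiv_ext
      · rw [k1 z hz]; simp
      · rw [kI z hz]; simp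
    rw [h4] at h3
    exact h3
  have hconst : ∀ z ∈ D0, h z = h (b x) := by
    intro z hz
    refine isOpen_ball.is_const_of_fderiv_eq_zero (𝕜 := ℝ) (convex_ball _ _).isPreconnected
      (fun w hw => (hder w hw).differentiableAt.differentiableWithinAt)
      (fun w hw => (hder w hw).fderiv) hz (mem_ball_self hr)
  have hball : ∀ᶠ y in 𝓝 x, b y ∈ D0 :=
    (b.continuousAt hx).eventually (isOpen_ball.mem_nhds (mem_ball_self hr))
  have hbx : b' x = ρ * b x + β := hβ.self_of_nhds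
  filter_upwards [hball, hβ] with y hy hy2
  have := hconst _ hy
  simp only [h] at this
  rw [hbx, hy2]
  exact this

end

/-! ### test functions -/

section
variable {X : Type u} [TopologicalSpace X] {D : DilationSurface X}

theorem pot_test_add {ψ ψ' : X → ℂ} (h : D.IsTest ψ) (h' : D.IsTest ψ') :
    D.IsTest (fun x => ψ x + ψ' x) := by
  refine ⟨fun e he x hx => ?_, fun p hp => ?_⟩
  · exact (h.1 e he x hx).add (h'.1 e he x hx)
  · filter_upwards [h.2 p hp, h'.2 p hp] with y h1 h2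
    rw [h1, h2]

theorem pot_test_smul {ψ : X → ℂ} (h : D.IsTest ψ) (c : ℂ) : D.IsTest (fun x => c * ψ x) := by
  refine ⟨fun e he x hx => ?_, fun p hp => ?_⟩
  · exact contDiffAt_const.mul (h.1 e he x hx)
  · filter_upwards [h.2 p hp] with y h1
    rw [h1]

theorem pot_test_zero : D.IsTest (fun _ => (0 : ℂ)) :=
  ⟨fun _ _ _ _ => contDiffAt_const, fun _ _ => Eventually.of_forall fun _ => rfl⟩

/-- a test function as a twisted function -/
noncomputable def potTwist {ψ : X → ℂ} (h : D.IsTest ψ) : D.Twist where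
  F _ := ψ
  trans _ _ _ _ _ _ _ := Eventually.of_forall fun _ => by simp
  smooth := h.1

theorem pot_test_diff {ψ : X → ℂ} (h : D.IsTest ψ) {b : OpenPartialHomeomorph X ℂ}
    (hb : D.IsBall b) {z : ℂ} (hz : z ∈ B1) :
    ContDiffAt ℝ (⊤ : ℕ∞) (ψ ∘ b.symm) z := by
  have := h.1 b hb.1 _ (ball_symm_mem hb hz)
  rwa [ball_right_inv hb hz] at this

theorem pot_loc_test (hG : SB_LOCG.{u}) (R : D.Ref) {ψ : X → ℂ} (h : D.IsTest ψ)
    {b : OpenPartialHomeomorph X ℂ} (hb : D.IsBall b) {z : ℂ} (hz : z ∈ B1) :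
    R.loc b (R.gx fun _ => ψ) z = dx (ψ ∘ b.symm) z ∧
      R.loc b (R.gy fun _ => ψ) z = dy (ψ ∘ b.symm) z :=
  hG X D R (potTwist h) b hb z hz

end

section
variable {X : Type u} [TopologicalSpace X] [CompactSpace X] [T2Space X] [MeasurableSpace X]
  [BorelSpace X] {D : DilationSurface X}

theorem pot_eq_of_loc (hL : SB_LOCL.{u}) (R : D.Ref) (f g : X → ℂ)
    (h : ∀ b, D.IsBall b → ∀ z ∈ B1, R.loc b f z = R.loc b g z) : f =ᵐ[R.mu] g := by
  refine (hL X D R).2 f g fun b hb => ?_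
  refine (ae_restrict_iff' measurableSet_ball).mpr (Eventually.of_forall fun z hz => ?_)
  exact h b hb z hz

theorem pot_span (hL : SB_LOCL.{u}) (hG : SB_LOCG.{u}) (R : D.Ref) (β : R.H × R.H)
    (hβ : β ∈ Submodule.span ℂ {α : R.H × R.H | ∃ ψ, D.IsTest ψ ∧
      α.1 =ᵐ[R.mu] R.gx (fun _ => ψ) ∧ α.2 =ᵐ[R.mu] R.gy (fun _ => ψ)}) :
    ∃ ψ, D.IsTest ψ ∧ β.1 =ᵐ[R.mu] R.gx (fun _ => ψ) ∧ β.2 =ᵐ[R.mu] R.gy (fun _ => ψ) := by
  induction hβ using Submodule.span_induction with
  | mem x h => exact h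
  | zero =>
    refine ⟨fun _ => 0, pot_test_zero, ?_, ?_⟩
    · refine (Lp.coeFn_zero ℂ 2 R.mu).trans (pot_eq_of_loc hL R _ _ fun b hb z hz => ?_)
      rw [(pot_loc_test hG R pot_test_zero hb hz).1]
      simp [Ref.loc, dx, Function.comp_def]
    · refine (Lp.coeFn_zero ℂ 2 R.mu).trans (pot_eq_of_loc hL R _ _ fun b hb z hz => ?_)
      rw [(pot_loc_test hG R pot_test_zero hb hz).2]
      simp [Ref.loc, dy, Function.comp_def]
  | add x y hx hy ihx ihy =>
    obtain ⟨ψ, h, h1, h2⟩ := ihx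
    obtain ⟨ψ', h', h1', h2'⟩ := ihy
    refine ⟨_, pot_test_add h h', ?_, ?_⟩
    · refine (Lp.coeFn_add x.1 y.1).trans ((h1.add h1').trans
        (pot_eq_of_loc hL R _ _ fun b hb z hz => ?_))
      rw [(pot_loc_test hG R (pot_test_add h h') hb hz).1]
      have e1 := (pot_loc_test hG R h hb hz).1
      have e2 := (pot_loc_test hG R h' hb hz).1
      have d1 := (pot_test_diff h hb hz).differentiableAt (by simp)
      have d2 := (pot_test_diff h' hb hz).differentiableAt (by simp)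
      have e3 : dx ((fun x => ψ x + ψ' x) ∘ b.symm) z =
          dx (ψ ∘ b.symm) z + dx (ψ' ∘ b.symm) z := by
        have := fderiv_add d1 d2
        unfold dx
        rw [show ((fun x => ψ x + ψ' x) ∘ b.symm) = ψ ∘ b.symm + ψ' ∘ b.symm from rfl, this]
        rfl
      rw [e3, ← e1, ← e2]
      simp only [Ref.loc, Pi.add_apply]
      ring
    · refine (Lp.coeFn_add x.2 y.2).trans ((h2.add h2').trans
        (pot_eq_of_loc hL R _ _ fun b hb z hz => ?_))
      rw [(pot_loc_test hG R (pot_test_add h h') hb hz).2]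
      have e1 := (pot_loc_test hG R h hb hz).2
      have e2 := (pot_loc_test hG R h' hb hz).2
      have d1 := (pot_test_diff h hb hz).differentiableAt (by simp)
      have d2 := (pot_test_diff h' hb hz).differentiableAt (by simp)
      have e3 : dy ((fun x => ψ x + ψ' x) ∘ b.symm) z =
          dy (ψ ∘ b.symm) z + dy (ψ' ∘ b.symm) z := by
        have := fderiv_add d1 d2
        unfold dy
        rw [show ((fun x => ψ x + ψ' x) ∘ b.symm) = ψ ∘ b.symm + ψ' ∘ b.symm from rfl, this]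
        rfl
      rw [e3, ← e1, ← e2]
      simp only [Ref.loc, Pi.add_apply]
      ring
  | smul c x hx ih =>
    obtain ⟨ψ, h, h1, h2⟩ := ih
    refine ⟨_, pot_test_smul h c, ?_, ?_⟩
    · refine (Lp.coeFn_smul c x.1).trans ((h1.const_smul c).trans
        (pot_eq_of_loc hL R _ _ fun b hb z hz => ?_))
      rw [(pot_loc_test hG R (pot_test_smul h c) hb hz).1]
      have e1 := (pot_loc_test hG R h hb hz).1
      have d1 := (pot_test_diff h hb hz).differentiableAt (by simp)
      have e3 : dx ((fun x => c * ψ x) ∘ b.symm) z = c * dx (ψ ∘ b.symm) z := by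
        have := fderiv_const_mul d1 c
        unfold dx
        rw [show ((fun x => c * ψ x) ∘ b.symm) = fun y => c * (ψ ∘ b.symm) y from rfl, this]
        rfl
      rw [e3, ← e1]
      simp only [Ref.loc, Pi.smul_apply, smul_eq_mul]
      ring
    · refine (Lp.coeFn_smul c x.2).trans ((h2.const_smul c).trans
        (pot_eq_of_loc hL R _ _ fun b hb z hz => ?_))
      rw [(pot_loc_test hG R (pot_test_smul h c) hb hz).2]
      have e1 := (pot_loc_test hG R h hb hz).2
      have d1 := (pot_test_diff h hb hz).differentiableAt (by simp)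
      have e3 : dy ((fun x => c * ψ x) ∘ b.symm) z = c * dy (ψ ∘ b.symm) z := by
        have := fderiv_const_mul d1 c
        unfold dy
        rw [show ((fun x => c * ψ x) ∘ b.symm) = fun y => c * (ψ ∘ b.symm) y from rfl, this]
        rfl
      rw [e3, ← e1]
      simp only [Ref.loc, Pi.smul_apply, smul_eq_mul]
      ring

theorem pot_norm_sq {μ : Measure ℂ} (f : Lp ℂ 2 μ) : ∫ z, ‖f z‖ ^ 2 ∂μ = ‖f‖ ^ 2 := by
  have h1 : inner ℂ f f = ((‖f‖ : ℂ)) ^ 2 := inner_self_eq_norm_sq_to_K f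
  rw [L2.inner_def] at h1
  have h2 : (fun z => inner ℂ (f z) (f z)) = fun z => ((‖f z‖ ^ 2 : ℝ) : ℂ) := by
    funext z
    rw [inner_self_eq_norm_sq_to_K]
    simp
  rw [h2, integral_complex_ofReal] at h1
  exact_mod_cast h1

/-- convergence of the test functions to the local potentials, up to constants -/
theorem pot_seq (hL : SB_LOCL.{u}) (hG : SB_LOCG.{u}) (hP : ST_POIN) (R : D.Ref)
    (α : R.H × R.H) (a : OpenPartialHomeomorph X ℂ → ℂ → ℂ) (hα : α ∈ R.E)
    (ha : ∀ b, D.IsBall b → ContDiffOn ℝ 1 (a b) B1 ∧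
      (R.loc b α.1 =ᵐ[volume.restrict B1] dx (a b)) ∧
      (R.loc b α.2 =ᵐ[volume.restrict B1] dy (a b))) :
    ∃ (ψ : ℕ → X → ℂ) (c : OpenPartialHomeomorph X ℂ → ℕ → ℂ), (∀ n, D.IsTest (ψ n)) ∧
      ∀ b, D.IsBall b → Tendsto (fun n => ∫⁻ z in Bh,
        ENNReal.ofReal (‖ψ n (b.symm z) - a b z - c b n‖ ^ 2)) atTop (𝓝 0) := by
  classical
  obtain ⟨β, hβ, hlim⟩ := mem_closure_iff_seq_limit.mp
    (show α ∈ closure _ from hα)
  choose ψ hψ h1 h2 using fun n => pot_span hL hG R (β n) (hβ n)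
  obtain ⟨C, hC⟩ := hP
  have main : ∀ b, D.IsBall b → ∃ c : ℕ → ℂ, Tendsto (fun n => ∫⁻ z in Bh,
      ENNReal.ofReal (‖ψ n (b.symm z) - a b z - c n‖ ^ 2)) atTop (𝓝 0) := by
    intro b hb
    obtain ⟨Lb, hL1, -, hL3⟩ := (hL X D R).1 b hb
    have hd : ∀ n, ∀ z ∈ B1, DifferentiableAt ℝ (ψ n ∘ b.symm) z := fun n z hz =>
      (pot_test_diff (hψ n) hb hz).differentiableAt (by simp)
    have hda : ∀ z ∈ B1, DifferentiableAt ℝ (a b) z := fun z hz =>
      ((ha b hb).1.differentiableOn one_ne_zero).differentiableAt (pot_isOpen_B1.mem_nhds hz)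
    have hf1 : ∀ n, (Lb ((β n).1 - α.1) : ℂ → ℂ) =ᵐ[volume.restrict B1]
        dx (fun z => ψ n (b.symm z) - a b z) := by
      intro n
      rw [map_sub]
      have e1 := (hL1 (β n).1).trans (hL3 _ _ (h1 n))
      have e2 := (hL1 α.1).trans (ha b hb).2.1
      refine (Lp.coeFn_sub _ _).trans ((e1.sub e2).trans ?_)
      refine (ae_restrict_iff' measurableSet_ball).mpr (Eventually.of_forall fun z hz => ?_)
      simp only [Pi.sub_apply]
      rw [(pot_loc_test hG R (hψ n) hb hz).1]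
      have := fderiv_sub (hd n z hz) (hda z hz)
      unfold dx
      rw [show (fun z => ψ n (b.symm z) - a b z) = ψ n ∘ b.symm - a b from rfl, this]
      rfl
    have hf2 : ∀ n, (Lb ((β n).2 - α.2) : ℂ → ℂ) =ᵐ[volume.restrict B1]
        dy (fun z => ψ n (b.symm z) - a b z) := by
      intro n
      rw [map_sub]
      have e1 := (hL1 (β n).2).trans (hL3 _ _ (h2 n))
      have e2 := (hL1 α.2).trans (ha b hb).2.2
      refine (Lp.coeFn_sub _ _).trans ((e1.sub e2).trans ?_)
      refine (ae_restrict_iff' measurableSet_ball).mpr (Eventually.of_forall fun z hz => ?_)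
      simp only [Pi.sub_apply]
      rw [(pot_loc_test hG R (hψ n) hb hz).2]
      have := fderiv_sub (hd n z hz) (hda z hz)
      unfold dy
      rw [show (fun z => ψ n (b.symm z) - a b z) = ψ n ∘ b.symm - a b from rfl, this]
      rfl
    have hint : ∀ (g : Lp ℂ 2 ((volume : Measure ℂ).restrict B1)) (f : ℂ → ℂ),
        g =ᵐ[volume.restrict B1] f → Integrable (fun z => ‖f z‖ ^ 2) (volume.restrict B1) ∧
          ∫ z in B1, ‖f z‖ ^ 2 = ‖g‖ ^ 2 := by
      intro g f hgf
      have h3 : MemLp f 2 (volume.restrict B1) := (memLp_congr_ae hgf).mp (Lp.memLp g)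
      refine ⟨(memLp_two_iff_integrable_sq_norm h3.1).mp h3, ?_⟩
      rw [← pot_norm_sq g]
      refine integral_congr_ae ?_
      filter_upwards [hgf] with z hz
      rw [hz]
    have hi1 := fun n => hint _ _ (hf1 n)
    have hi2 := fun n => hint _ _ (hf2 n)
    have hcd : ∀ n, ContDiffOn ℝ 1 (fun z => ψ n (b.symm z) - a b z) B1 := by
      intro n
      refine ContDiffOn.sub (fun z hz => ?_) (ha b hb).1
      exact ((pot_test_diff (hψ n) hb hz).of_le (by exact_mod_cast le_top)).contDiffWithinAt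
    choose c hc1 hc2 using fun n => hC _ (hcd n) ((hi1 n).1.add (hi2 n).1)
    refine ⟨c, ?_⟩
    have hval : ∀ n, ∫⁻ z in Bh, ENNReal.ofReal (‖ψ n (b.symm z) - a b z - c n‖ ^ 2) ≤
        ENNReal.ofReal (C * (‖Lb ((β n).1 - α.1)‖ ^ 2 + ‖Lb ((β n).2 - α.2)‖ ^ 2)) := by
      intro n
      rw [← ofReal_integral_eq_lintegral_ofReal (hc1 n)
        (Eventually.of_forall fun z => by positivity)]
      refine ENNReal.ofReal_le_ofReal ((hc2 n).trans (le_of_eq ?_))
      rw [integral_add (hi1 n).1 (hi2 n).1, (hi1 n).2, (hi2 n).2]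
    refine tendsto_of_tendsto_of_tendsto_of_le_of_le tendsto_const_nhds ?_ (fun n => bot_le)
      hval
    have t1 : Tendsto (fun n => Lb ((β n).1 - α.1)) atTop (𝓝 0) := by
      have h3 : Tendsto (fun n => (β n).1 - α.1) atTop (𝓝 (α.1 - α.1)) :=
        ((continuous_fst.tendsto α).comp hlim).sub tendsto_const_nhds
      have h4 := (Lb.continuous.tendsto (α.1 - α.1)).comp h3
      rw [sub_self, map_zero] at h4
      exact h4
    have t2 : Tendsto (fun n => Lb ((β n).2 - α.2)) atTop (𝓝 0) := by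
      have h3 : Tendsto (fun n => (β n).2 - α.2) atTop (𝓝 (α.2 - α.2)) :=
        ((continuous_snd.tendsto α).comp hlim).sub tendsto_const_nhds
      have h4 := (Lb.continuous.tendsto (α.2 - α.2)).comp h3
      rw [sub_self, map_zero] at h4
      exact h4
    have t3 : Tendsto (fun n => C * (‖Lb ((β n).1 - α.1)‖ ^ 2 + ‖Lb ((β n).2 - α.2)‖ ^ 2))
        atTop (𝓝 0) := by
      have := ((t1.norm.pow 2).add (t2.norm.pow 2)).const_mul C
      simpa using this
    have t4 := ENNReal.tendsto_ofReal t3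
    simpa using t4
  choose! c hc using main
  exact ⟨ψ, c, hψ, hc⟩

omit [CompactSpace X] [T2Space X] [BorelSpace X] in
/-- comparison of the constants of two overlapping balls -/
theorem pot_cmp (R : D.Ref) (α : R.H × R.H) (a : OpenPartialHomeomorph X ℂ → ℂ → ℂ)
    (ha : ∀ b, D.IsBall b → ContDiffOn ℝ 1 (a b) B1 ∧
      (R.loc b α.1 =ᵐ[volume.restrict B1] dx (a b)) ∧
      (R.loc b α.2 =ᵐ[volume.restrict B1] dy (a b)))
    (ψ : ℕ → X → ℂ) (c : OpenPartialHomeomorph X ℂ → ℕ → ℂ) (hψ : ∀ n, D.IsTest (ψ n))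
    (hc : ∀ b, D.IsBall b → Tendsto (fun n => ∫⁻ z in Bh,
        ENNReal.ofReal (‖ψ n (b.symm z) - a b z - c b n‖ ^ 2)) atTop (𝓝 0))
    {b b' : OpenPartialHomeomorph X ℂ} (hb : D.IsBall b) (hb' : D.IsBall b') {x : X}
    (hx : x ∈ b.source) (hx' : x ∈ b'.source) (hxh : b x ∈ Bh) (hxh' : b' x ∈ Bh) :
    Tendsto (fun n => c b n - c b' n) atTop (𝓝 (a b' (b' x) - a b (b x))) := by
  obtain ⟨s, hs⟩ := isChart_dil hb.1 hb'.1 hx hx'
  obtain ⟨hρ, β, hβ⟩ := rat_spec hs
  set ρ := rat b b' x with hρdef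
  set k := a b' (b' x) - a b (b x) with hk
  have hev : ∀ᶠ y in 𝓝 x, y ∈ b'.source ∧ b' y = ρ * b y + β ∧ b y ∈ Bh ∧ b' y ∈ Bh ∧
      a b' (b' y) - a b (b y) = k :=
    (show ∀ᶠ y in 𝓝 x, y ∈ b'.source from b'.open_source.mem_nhds hx').and
      (hβ.and (((b.continuousAt hx).eventually (pot_isOpen_Bh.mem_nhds hxh)).and
      (((b'.continuousAt hx').eventually (pot_isOpen_Bh.mem_nhds hxh')).and
        (pot_affine R α a ha hb hb' hx hx'))))
  obtain ⟨r, hr, hrB, hrp⟩ := pot_disc hb hx hev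
  set D0 := ball (b x) r with hD0
  have hD0h : D0 ⊆ Bh := by
    intro z hz
    have := (hrp z hz).2.2.1
    rwa [ball_right_inv hb (hrB hz)] at this
  have hfacts : ∀ z ∈ D0, b'.symm (ρ * z + β) = b.symm z ∧ (ρ : ℂ) * z + β ∈ Bh ∧
      a b' (ρ * z + β) - a b z = k := by
    intro z hz
    obtain ⟨h1, h2, -, h4, h5⟩ := hrp z hz
    rw [ball_right_inv hb (hrB hz)] at h2 h5
    rw [h2] at h5 h4
    refine ⟨?_, h4, h5⟩
    rw [← h2, b'.left_inv h1]
  let A : ℕ → ENNReal := fun n => ∫⁻ z in Bh,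
    ENNReal.ofReal (‖ψ n (b.symm z) - a b z - c b n‖ ^ 2)
  let B : ℕ → ENNReal := fun n => ∫⁻ z in Bh,
    ENNReal.ofReal (‖ψ n (b'.symm z) - a b' z - c b' n‖ ^ 2)
  set K : ENNReal := ENNReal.ofReal |(ρ ^ 2)⁻¹| with hK
  have hvol0 : (volume : Measure ℂ) D0 ≠ 0 := (measure_ball_pos volume _ hr).ne'
  have hvolt : (volume : Measure ℂ) D0 ≠ ⊤ := measure_ball_lt_top.ne
  have hle : ∀ n, ENNReal.ofReal (‖k - (c b n - c b' n)‖ ^ 2) * (volume : Measure ℂ) D0 ≤
      2 * A n + 2 * (K * B n) := by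
    intro n
    let F : ℂ → ENNReal := fun z => ENNReal.ofReal (‖ψ n (b.symm z) - a b z - c b n‖ ^ 2)
    let Gg : ℂ → ENNReal := fun w => ENNReal.ofReal (‖ψ n (b'.symm w) - a b' w - c b' n‖ ^ 2)
    have hFm : AEMeasurable (fun z => 2 * F z) ((volume : Measure ℂ).restrict D0) := by
      have h1 : ContinuousOn (fun z => ψ n (b.symm z) - a b z - c b n) D0 := by
        refine ContinuousOn.sub (ContinuousOn.sub ?_ ((ha b hb).1.continuousOn.mono hrB))
          continuousOn_const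
        intro z hz
        exact (pot_test_diff (hψ n) hb (hrB hz)).continuousAt.continuousWithinAt
      have h2 : AEMeasurable (fun z => ψ n (b.symm z) - a b z - c b n)
          ((volume : Measure ℂ).restrict D0) := h1.aemeasurable measurableSet_ball
      exact ((h2.norm.pow_const 2).ennreal_ofReal).const_mul 2
    have hpt : ∀ z ∈ D0, ENNReal.ofReal (‖k - (c b n - c b' n)‖ ^ 2) ≤
        2 * F z + 2 * Gg (ρ * z + β) := by
      intro z hz
      obtain ⟨h1, h2, h3⟩ := hfacts z hz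
      have e1 : k - (c b n - c b' n) = (ψ n (b.symm z) - a b z - c b n)
          - (ψ n (b'.symm (ρ * z + β)) - a b' (ρ * z + β) - c b' n) := by
        rw [h1, ← h3]
        ring
      have e2 : ‖k - (c b n - c b' n)‖ ^ 2 ≤ 2 * ‖ψ n (b.symm z) - a b z - c b n‖ ^ 2
          + 2 * ‖ψ n (b'.symm (ρ * z + β)) - a b' (ρ * z + β) - c b' n‖ ^ 2 := by
        rw [e1]
        have h4 := norm_sub_le (ψ n (b.symm z) - a b z - c b n)
          (ψ n (b'.symm (ρ * z + β)) - a b' (ρ * z + β) - c b' n)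
        have h5 := norm_nonneg ((ψ n (b.symm z) - a b z - c b n)
          - (ψ n (b'.symm (ρ * z + β)) - a b' (ρ * z + β) - c b' n))
        nlinarith [sq_nonneg (‖ψ n (b.symm z) - a b z - c b n‖
          - ‖ψ n (b'.symm (ρ * z + β)) - a b' (ρ * z + β) - c b' n‖)]
      refine (ENNReal.ofReal_le_ofReal e2).trans (le_of_eq ?_)
      rw [ENNReal.ofReal_add (by positivity) (by positivity),
        ENNReal.ofReal_mul (by norm_num), ENNReal.ofReal_mul (by norm_num)]
      simp [F, Gg]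
    calc ENNReal.ofReal (‖k - (c b n - c b' n)‖ ^ 2) * (volume : Measure ℂ) D0
        = ∫⁻ _ in D0, ENNReal.ofReal (‖k - (c b n - c b' n)‖ ^ 2) := by
          rw [setLIntegral_const]
      _ ≤ ∫⁻ z in D0, (2 * F z + 2 * Gg (ρ * z + β)) :=
          setLIntegral_mono' measurableSet_ball hpt
      _ = (∫⁻ z in D0, 2 * F z) + ∫⁻ z in D0, 2 * Gg (ρ * z + β) := lintegral_add_left' hFm _
      _ = 2 * (∫⁻ z in D0, F z) + 2 * ∫⁻ z in D0, Gg (ρ * z + β) := by
          rw [lintegral_const_mul' _ _ (by norm_num), lintegral_const_mul' _ _ (by norm_num)]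
      _ ≤ 2 * A n + 2 * (K * B n) := by
          refine add_le_add (mul_le_mul' le_rfl (lintegral_mono_set hD0h))
            (mul_le_mul' le_rfl ?_)
          calc ∫⁻ z in D0, Gg (ρ * z + β)
              ≤ ∫⁻ z : ℂ, Bh.indicator Gg (ρ * z + β) := by
                rw [← lintegral_indicator (show MeasurableSet D0 from measurableSet_ball)]
                refine lintegral_mono fun z => ?_
                by_cases hz : z ∈ D0
                · simp only [indicator_of_mem hz, indicator_of_mem (hfacts z hz).2.1, le_refl]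
                · simp only [indicator_of_notMem hz]
                  exact bot_le
            _ = K * ∫⁻ w, Bh.indicator Gg w := pot_lint hρ β _
            _ = K * B n := by
                rw [lintegral_indicator (show MeasurableSet Bh from measurableSet_ball)]
  have hlim1 : Tendsto (fun n => 2 * A n + 2 * (K * B n)) atTop (𝓝 0) := by
    have hA : Tendsto A atTop (𝓝 0) := hc b hb
    have hB : Tendsto B atTop (𝓝 0) := hc b' hb'
    have h1 := ENNReal.Tendsto.const_mul (a := 2) hA (Or.inr (by norm_num))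
    have h2 := ENNReal.Tendsto.const_mul (a := K) hB (Or.inr ENNReal.ofReal_ne_top)
    have h3 := ENNReal.Tendsto.const_mul (a := 2) h2 (Or.inr (by norm_num))
    simpa using h1.add h3
  have hlim2 : Tendsto (fun n => ENNReal.ofReal (‖k - (c b n - c b' n)‖ ^ 2)) atTop (𝓝 0) := by
    have h1 : Tendsto (fun n => ENNReal.ofReal (‖k - (c b n - c b' n)‖ ^ 2)
        * (volume : Measure ℂ) D0) atTop (𝓝 0) :=
      tendsto_of_tendsto_of_tendsto_of_le_of_le tendsto_const_nhds hlim1 (fun n => bot_le) hle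
    have h2 := ENNReal.Tendsto.mul_const (b := ((volume : Measure ℂ) D0)⁻¹) h1
      (Or.inr (ENNReal.inv_ne_top.mpr hvol0))
    rw [zero_mul] at h2
    refine h2.congr fun n => ?_
    rw [mul_assoc, ENNReal.mul_inv_cancel hvol0 hvolt, mul_one]
  have hlim3 : Tendsto (fun n => ‖k - (c b n - c b' n)‖ ^ 2) atTop (𝓝 0) := by
    have := (ENNReal.tendsto_toReal ENNReal.zero_ne_top).comp hlim2
    rw [ENNReal.toReal_zero] at this
    refine this.congr fun n => ?_
    simp only [Function.comp]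
    rw [ENNReal.toReal_ofReal (by positivity)]
  have hlim4 : Tendsto (fun n => ‖k - (c b n - c b' n)‖) atTop (𝓝 0) := by
    have h1 := (Real.continuous_sqrt.tendsto 0).comp hlim3
    rw [Real.sqrt_zero] at h1
    refine h1.congr fun n => ?_
    simp only [Function.comp]
    rw [Real.sqrt_sq (norm_nonneg _)]
  rw [tendsto_iff_norm_sub_tendsto_zero]
  refine hlim4.congr fun n => ?_
  rw [norm_sub_rev]

end

theorem sb_POT (hL : SB_LOCL.{u}) (hP : ST_POIN) : SB_POT.{u} := by
  intro X _ _ _ _ _ _ D R α a hα ha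
  classical
  obtain ⟨ψ, c, hψ, hc⟩ := pot_seq hL sb_LOCG hP R α a hα ha
  have cmp := fun {b b' : OpenPartialHomeomorph X ℂ} (hb : D.IsBall b) (hb' : D.IsBall b') {x : X}
    hx hx' hxh hxh' => pot_cmp R α a ha ψ c hψ hc hb hb' (x := x) hx hx' hxh hxh'
  obtain ⟨hconn, -⟩ := sb_CONN X D
  have hne : Nonempty (OpenPartialHomeomorph X ℂ) := ⟨R.B 0⟩
  choose! bb hbb using fun x (hx : x ∉ D.cone) => sb_BALL X D x hx univ univ_mem
  have h0h : (0 : ℂ) ∈ Bh := by
    unfold Bh
    exact mem_ball_self (by norm_num)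
  let s : X → ℕ → ℂ := fun x n => a (bb x) (bb x x) + c (bb x) n
  have hloc : ∀ x, x ∉ D.cone → ∀ y ∈ (bb x).source, bb x y ∈ Bh →
      Tendsto (fun n => s y n - s x n) atTop
        (𝓝 (a (bb x) (bb x y) - a (bb x) (bb x x))) := by
    intro x hx y hy hyh
    have hyr : y ∉ D.cone := (hbb x hx).1.1.1 y hy
    have h1 := cmp (hbb y hyr).1 (hbb x hx).1 (hbb y hyr).2.1 hy
      (by rw [(hbb y hyr).2.2.1]; exact h0h) hyh
    have h2 := h1.add_const (a (bb y) (bb y y) - a (bb x) (bb x x))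
    have h3 : a (bb x) (bb x y) - a (bb y) (bb y y) + (a (bb y) (bb y y) - a (bb x) (bb x x)) =
        a (bb x) (bb x y) - a (bb x) (bb x x) := by ring
    rw [h3] at h2
    refine h2.congr fun n => ?_
    simp only [s]
    ring
  have hnear : ∀ x, x ∉ D.cone → ∀ᶠ y in 𝓝 x, y ∈ (bb x).source ∧ bb x y ∈ Bh := by
    intro x hx
    have hxs := (hbb x hx).2.1
    exact (show ∀ᶠ y in 𝓝 x, y ∈ (bb x).source from (bb x).open_source.mem_nhds hxs).and
      (((bb x).continuousAt hxs).eventually (pot_isOpen_Bh.mem_nhds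
        (by rw [(hbb x hx).2.2.1]; exact h0h)))
  let P : X → X → Prop := fun x y => ∃ l, Tendsto (fun n => s x n - s y n) atTop (𝓝 l)
  have hPsymm : ∀ x y, P x y → P y x := by
    rintro x y ⟨l, hl⟩
    refine ⟨-l, hl.neg.congr fun n => ?_⟩
    ring
  have hPall : ∀ x y, x ∈ D.coneᶜ → y ∈ D.coneᶜ → P x y := by
    intro x y hx hy
    refine hconn.isPreconnected.induction₂' P (fun x hx => ?_) (fun x y z _ _ _ hxy hyz => ?_)
      hx hy
    · refine ((hnear x hx).filter_mono nhdsWithin_le_nhds).mono fun y hy => ?_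
      have h1 : P y x := ⟨_, hloc x hx y hy.1 hy.2⟩
      exact ⟨hPsymm _ _ h1, h1⟩
    · obtain ⟨l, hl⟩ := hxy
      obtain ⟨l', hl'⟩ := hyz
      refine ⟨l + l', (hl.add hl').congr fun n => ?_⟩
      ring
  obtain ⟨x0, hx0⟩ := hconn.nonempty
  choose! κ hκ using fun x (hx : x ∉ D.cone) => hPall x x0 hx hx0
  have hκloc : ∀ x, x ∉ D.cone → ∀ᶠ y in 𝓝 x, κ y = κ x + (a (bb x) (bb x y)
      - a (bb x) (bb x x)) := by
    intro x hx
    filter_upwards [hnear x hx] with y hy
    have hyr : y ∉ D.cone := (hbb x hx).1.1.1 y hy.1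
    have h1 := (hκ x hx).add (hloc x hx y hy.1 hy.2)
    refine tendsto_nhds_unique (hκ y hyr) (h1.congr fun n => ?_)
    ring
  refine ⟨κ, fun b hb => ?_⟩
  let h : ℂ → ℂ := fun z => κ (b.symm z) - a b z
  have hhloc : ∀ z ∈ B1, ∀ᶠ w in 𝓝 z, h w = h z := by
    intro z hz
    have hxs := ball_symm_mem hb hz
    have hxr := ball_symm_reg hb hz
    set x := b.symm z with hxdef
    have h1 := hκloc x hxr
    have h2 := pot_affine R α a ha hb (hbb x hxr).1 hxs (hbb x hxr).2.1
    have h3 : ∀ᶠ y in 𝓝 x, κ y - a b (b y) = κ x - a b (b x) := by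
      filter_upwards [h1, h2] with y h1 h2
      rw [h1]
      linear_combination h2
    have h4 : Tendsto b.symm (𝓝 z) (𝓝 x) :=
      b.symm.continuousAt (x := z) (by
        show z ∈ b.target
        rw [hb.2]
        exact hz)
    filter_upwards [h4.eventually h3, pot_isOpen_B1.mem_nhds hz] with w hw hwB
    rw [ball_right_inv hb hwB, hxdef, ball_right_inv hb hz] at hw
    exact hw
  have hB1 : IsPreconnected B1 := (convex_ball (0 : ℂ) 1).isPreconnected
  have hall : ∀ z ∈ B1, ∀ w ∈ B1, h z = h w := by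
    intro z hz w hw
    refine hB1.induction₂' (fun z w => h z = h w) (fun z hz => ?_) (fun _ _ _ _ _ _ h1 h2 =>
      h1.trans h2) hz hw
    exact ((hhloc z hz).filter_mono nhdsWithin_le_nhds).mono fun w hw => ⟨hw.symm, hw⟩
  have h01 : (0 : ℂ) ∈ B1 := mem_ball_self one_pos
  refine ⟨h 0, fun z hz => ?_⟩
  have := hall z hz 0 h01
  rw [← this]
  simp only [h]
  ring

end Pool.Agent.Helper78.Dil
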